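import Pool.Agent.Y184.NT.StD
import Pool.Agent.Y721.NT.Vert

/-!
Project NT (helper184), job Abh: the restriction of a divisorial place is divisorial
-/

set_option autoImplicit false

open FF Polynomial Pool.Agent.W602.GT

namespace Pool.Agent.Y71.NT

open Pool.Agent.Y184.NT Pool.Agent.Y721.NT

section lift

variable {K R : Type} [Field K] [Field R] [Algebra ℂ K] [Algebra ℂ R] [Algebra K R]
  [IsScalarTower ℂ K R]

/-- elements with algebraically independent residues are algebraically independent -/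
theorem indep_lift {Q : Place ℂ R} {P : Place ℂ K} {e : ℕ} (h : Over Q P e) {ι : Type}
    (v : ι → R) (hv : ∀ i, Q.Reg (v i))
    (hind : ∀ G : MvPolynomial ι P.RF,
      MvPolynomial.eval₂ h.resMap.toRingHom (fun i => Q.red (v i)) G = 0 → G = 0) :
    AlgebraicIndependent K v := by
  classical
  rw [algebraicIndependent_iff]
  intro G hG
  by_contra hG0
  obtain ⟨m0, hm0, hmin⟩ := Finset.exists_min_image G.support (fun m => P.ord (G.coeff m))
    (MvPolynomial.support_nonempty.2 hG0)
  set c := G.coeff m0 with hc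
  have hc0 : c ≠ 0 := MvPolynomial.mem_support_iff.1 hm0
  set G1 := MvPolynomial.C c⁻¹ * G with hG1
  have hreg : ∀ m, P.Reg (G1.coeff m) := by
    intro m
    rw [hG1, MvPolynomial.coeff_C_mul]
    by_cases hm : G.coeff m = 0
    · rw [hm, mul_zero]
      exact P.reg_zero
    · right
      rw [P.ord_mul (inv_ne_zero hc0) hm, P.ord_inv]
      have := hmin m (MvPolynomial.mem_support_iff.2 hm)
      omega
  have h1 : G1 ∈ Set.range (MvPolynomial.map P.O.subtype) := by
    rw [MvPolynomial.mem_range_map_iff_coeffs_subset]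
    intro x hx
    rw [Finset.mem_coe, MvPolynomial.mem_coeffs_iff] at hx
    obtain ⟨m, -, rfl⟩ := hx
    exact ⟨⟨_, hreg m⟩, rfl⟩
  obtain ⟨G2, hG2⟩ := h1
  let φ : P.O →+* Q.O := ((algebraMap K R).comp P.O.subtype).codRestrict Q.O
    (fun f => h.reg.2 f.2)
  let v' : ι → Q.O := fun i => ⟨v i, hv i⟩
  have hE : MvPolynomial.eval₂ φ v' G2 = 0 := by
    apply Subtype.ext
    have h2 := MvPolynomial.eval₂_comp_left Q.O.subtype φ v' G2
    have h3 : Q.O.subtype.comp φ = (algebraMap K R).comp P.O.subtype := rfl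
    have h4 : (Q.O.subtype ∘ v') = v := rfl
    rw [h3, h4, ← MvPolynomial.eval₂_map, hG2, hG1, MvPolynomial.eval₂_mul,
      ← MvPolynomial.aeval_def (R := K) v G, hG, mul_zero] at h2
    exact h2
  have h5 := MvPolynomial.eval₂_comp_left Q.resHom φ v' G2
  have h6 : Q.resHom.comp φ = h.resMap.toRingHom.comp P.resHom := by
    ext f
    have h7 := h.resMap_red (f := (f : K)) f.2
    rw [P.red_of_reg f.2, Q.red_of_reg (h.reg.2 f.2)] at h7
    exact h7.symm
  have h8 : (Q.resHom ∘ v') = fun i => Q.red (v i) := by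
    funext i
    rw [Q.red_of_reg (hv i)]
    rfl
  rw [hE, map_zero, h6, h8, ← MvPolynomial.eval₂_map] at h5
  have h9 := hind _ h5.symm
  have h10 : G2.coeff m0 = 1 := by
    apply Subtype.ext
    have h11 : (MvPolynomial.map P.O.subtype G2).coeff m0 = P.O.subtype (G2.coeff m0) :=
      MvPolynomial.coeff_map _ _ _
    rw [hG2, hG1, MvPolynomial.coeff_C_mul, ← hc, inv_mul_cancel₀ hc0] at h11
    exact h11.symm
  have h12 : (MvPolynomial.map P.resHom G2).coeff m0 = P.resHom (G2.coeff m0) :=
    MvPolynomial.coeff_map _ _ _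
  rw [h9, h10, map_one, MvPolynomial.coeff_zero] at h12
  exact zero_ne_one h12

end lift

/-- a place with many algebraically independent residues is divisorial -/
theorem div_of_res {K : Type} [Field K] [Algebra ℂ K] {P : Place ℂ K} {n : ℕ}
    (m : Fin (n - 1) → P.RF) (hm : AlgebraicIndependent ℂ m) : Divisorial n P := by
  choose x hx hxm using fun i => P.red_surjective (m i)
  refine ⟨x, fun G hG => ?_⟩
  obtain ⟨h3, h4⟩ := red_aeval P x hx G
  have h5 : MvPolynomial.aeval (fun i => P.red (x i)) G ≠ 0 := by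
    intro h0
    apply hG
    have h6 : (fun i => P.red (x i)) = m := funext hxm
    rw [h6] at h0
    exact (injective_iff_map_eq_zero _).1 hm G h0
  rw [← h4, Ne, P.red_eq_zero_iff h3] at h5
  push Not at h5
  refine ⟨h5.1, ?_⟩
  have := (P.reg_iff h5.1).1 h3
  omega

/-- Abhyankar's inequality -/
theorem t_abh : StAbh := by
  classical
  intro K R _ _ _ _ _ _ n N hn hN Q P e h hdiv
  let _ : Algebra P.RF Q.RF := h.resMap.toRingHom.toAlgebra
  have hmap : ∀ x : P.RF, algebraMap P.RF Q.RF x = h.resMap x := fun x => rfl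
  have hst : IsScalarTower ℂ P.RF Q.RF :=
    IsScalarTower.of_algebraMap_eq fun c => (h.resMap.commutes c).symm
  -- the transcendence degrees
  have e1 : Algebra.trdeg ℂ K + Algebra.trdeg K R = Algebra.trdeg ℂ R :=
    _root_.trdeg_add_eq ℂ K (A := R)
  have e2 : Algebra.trdeg ℂ P.RF + Algebra.trdeg P.RF Q.RF = Algebra.trdeg ℂ Q.RF :=
    _root_.trdeg_add_eq ℂ P.RF (A := Q.RF)
  have hQ : ((N - 1 : ℕ) : Cardinal) ≤ Algebra.trdeg ℂ Q.RF := by
    obtain ⟨u, hu⟩ := hdiv
    have hreg : ∀ i, Q.Reg (u i) := by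
      intro i
      have h1 := (hu (MvPolynomial.X i) (MvPolynomial.X_ne_zero i)).2
      rw [MvPolynomial.aeval_X] at h1
      exact Or.inr h1.ge
    have hind : AlgebraicIndependent ℂ (fun i => Q.red (u i)) := by
      rw [algebraicIndependent_iff]
      intro G hG
      by_contra hG0
      obtain ⟨h1, h2⟩ := hu G hG0
      have h3 := (red_aeval Q u hreg G).2
      rw [hG] at h3
      exact Q.red_ne_zero h1 h2 h3
    have h4 := hind.cardinalMk_le_trdeg
    rwa [Cardinal.mk_fin] at h4
  have hPQ : Algebra.trdeg P.RF Q.RF ≤ Algebra.trdeg K R := by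
    obtain ⟨s, hs⟩ := exists_isTranscendenceBasis P.RF Q.RF
    choose v hv hvs using fun i : s => Q.red_surjective (i : Q.RF)
    have h1 : AlgebraicIndependent K v := by
      refine indep_lift h v hv fun G hG => ?_
      have h2 : (fun i => Q.red (v i)) = fun i : s => (i : Q.RF) := funext hvs
      rw [h2] at hG
      have h3 := hs.1
      rw [algebraicIndependent_iff] at h3
      exact h3 G hG
    rw [← hs.cardinalMk_eq_trdeg]
    exact h1.cardinalMk_le_trdeg
  have hlt : Algebra.trdeg K R < Cardinal.aleph0 := by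
    refine lt_of_le_of_lt ?_ (Cardinal.natCast_lt_aleph0 (n := N))
    rw [← hN, ← e1]
    exact self_le_add_left _ _
  obtain ⟨r, hr⟩ := Cardinal.lt_aleph0.1 hlt
  have hnr : n + r = N := by
    rw [hn, hN, hr] at e1
    exact_mod_cast e1
  have hle : ((n - 1 : ℕ) : Cardinal) ≤ Algebra.trdeg ℂ P.RF := by
    rcases Nat.eq_zero_or_pos n with h0 | h0
    · rw [h0]
      simp
    · rw [← Cardinal.add_le_add_iff_of_lt_aleph0 hlt]
      have h2 : ((n - 1 : ℕ) : Cardinal) + Algebra.trdeg K R = ((N - 1 : ℕ) : Cardinal) := by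
        rw [hr]
        have : n - 1 + r = N - 1 := by omega
        exact_mod_cast this
      rw [h2]
      refine hQ.trans ?_
      rw [← e2]
      gcongr
  -- the residues
  obtain ⟨s, hs⟩ := exists_isTranscendenceBasis ℂ P.RF
  rw [← hs.cardinalMk_eq_trdeg, ← Cardinal.mk_fin, Cardinal.le_def] at hle
  obtain ⟨f⟩ := hle
  exact div_of_res (fun i => ((f i : s) : P.RF)) (hs.1.comp f f.injective)

end Pool.Agent.Y71.NT
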